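import Pool.Agent.Work.MP_223b32_t4.Assembly12

/-!
# The Tate conjecture for abelian varieties of dimension at most five, six and seven over finite fields

`q = p ^ a`, `ι` an embedding of the algebraic closure `Qb` of `ℚ` in an algebraic closure of `ℚ_p`.
`R` is the multiset of the Frobenius eigenvalues on `H^1` of an abelian variety `A` over `F_q`
(`IsAV`: Weil numbers, stable under the Galois group, and the condition of Honda and Tate), `card R` is
`2 dim A`.  Everything is considered over all finite extensions of `F_q`, so Weil numbers `x`, `y`
are identified if `x ^ N = y ^ N` for some `N > 0` (`Sim`, `germ`).

`CycW` is the smallest set of multisets of Weil numbers closed under the known constructions of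
algebraic cycles: Tate's theorem on divisors of abelian varieties, products, cancellation of a
pair of opposite eigenvalues (complementary class and direct image), and reduction modulo `p` of Weil
classes on abelian varieties with complex multiplication of dimension `4` and `6` (Markman; Shimura
and Taniyama).

The theorem: all Tate classes in all codimensions, over `F_q` and all its finite extensions, are
spanned by classes in `CycW`, and the `L`-function has at `s = j` a pole of order the dimension of
their span, for (`Covered3`, in `DefsFin3.lean`)
* (a) every abelian variety `A` of dimension at most five, except if `A` is isogenous to
  `B × B' × E` with `B × B'` the exception (`HasExc`, `Exc4`) and `E` supersingular;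
* (b) every power of every abelian variety of dimension at most five which does not contain the
  exception `B × B'` (`Five`);
* (c) all products of powers of any number of factors with additive angle ranks (`AInd`) and of a
  supersingular abelian variety, where the factors (`Factor3`) are
  - abelian varieties of dimension at most five which do not contain the exception and, in
    dimension five, are not `Tri` (for instance all simple or isotypic ones:
    `factor2_of_isotypic` in `Assembly11.lean`);
  - simple abelian varieties of dimension six as in `SixOK`;
  - abelian varieties of dimension six, not necessarily simple, as in `SixJ`: with different germs and
    angle rank five, with an exceptional class of degree six, and with the condition of `SixOK`, for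
    instance products of two abelian threefolds, or of an elliptic curve and a fivefold, which contain
    the same imaginary quadratic field;
  - abelian varieties of any dimension whose angle rank is maximal (`FullRank`; for them alone the
    theorem is due to Zarhin and Lenstra - Zarhin, but the products with the other factors are new);
* (d) every abelian variety of dimension at most seven, with different germs, whose angle rank is at
  least the dimension minus one and whose exceptional classes of degree six (if there are any)
  satisfy the condition of `SixOK` (`Seven`).

`AInd` (additive angle ranks): every relation between the eigenvalues of the product (a product of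
eigenvalues is a power of `q ^ (1 / 2)` up to a root of unity) is a product of relations between the
eigenvalues of the single factors.  This is so if the Galois closures of the fields of the factors
are linearly disjoint (`IAU.lean`: `Indep` implies `AInd`); it holds trivially for one factor.

The exceptions.  `Exc4` is the product `B × B'` of an almost ordinary surface `B` and the ordinary
surface with the reflex field.  On `B × B' × E`, `E` supersingular, and on powers of `B × B'` there are
Tate classes which belong to a quartic field and not to an imaginary quadratic one.  `Tri`: the
abelian variety is `A' × C`, `C` an ordinary elliptic curve, and there is a Tate relation between two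
eigenvalues of `A'`, one of `C` and a supersingular one.

On the rules `weil4` and `weil6`.  Markman proved that the Weil classes are algebraic on all polarised
abelian varieties of Weil type of dimension `2 n` with discriminant `(-1) ^ n`, for `n = 2`
(J. Eur. Math. Soc. 2023) and `n = 3` (arXiv 2502.03415).  LEMMA. A CM type `(P, Phi)` of dimension
`2 n`, exactly `n` of the `2 n` embeddings over the imaginary quadratic field `k` in `Phi`, has a
polarisation of discriminant `(-1) ^ n`.  So the rules hold for all of them.  The proof is in the
docstring of `CycW` (`DefsW.lean`): the discriminant can be multiplied by the norm of any totally
positive element `t` of the totally real part of `P`, and `t` can be chosen by class field theory.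

Idea of the proof.  Let `u(x)` be the class of `x ^ 2 / q` in `Qb^*` modulo torsion, written
additively, and `w` the homomorphism with `w(u(x)) = 2 s - 1`, `s` the slope of `x`; `v = 0` if
`w(g v) = 0` for all `g` in the Galois group `G` (Kronecker).

(a) A Tate relation without opposite elements has four elements, `J ≤ u(R)`, `∑ J = 0`.
* `dim A = 4`: `g J = J` or `g J = -J` for all `g`, so there is an imaginary quadratic field `k`
  attached to `J`.
* Multiplicities: integrality of slopes and `w` leave only `J` without multiplicities or
  `J = {v, v, v, v'}` with slopes `1/3`, `2/3`, where `J` comes from a cubic field totally ramified
  at `p`.
* A CM type with the given slopes exists.  If `p` splits in `k` it has signature `(2,2)`.  Otherwise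
  the signature is not `(0,4)`, `(4,0)`; if it is `(1,3)` or `(3,1)` no lift of `A` has the class `J` as
  a Hodge class, but `A × E × E` has one with the class of `J` and of `E × E` and signature `(3,3)`, `E`
  the elliptic curve with complex multiplication by `k`, and the class of `E × E` can be cancelled.
* `dim A = 5`: the relation misses one pair `±u`.  If `±u` is stable the rest is an abelian
  variety of dimension four.  If not, two translates of `J` give `z + z = b - a` with `a`, `b` in the
  orbit of `u`; no vector of a finite orbit is the middle of two others; this leaves the exception.

(b), (c), powers.
* One orbit of germs: all relations are multiples of one relation.  For a simple fourfold: if not,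
  `G` acts on a plane with eight vectors in one orbit, all with weights `0`, `1`, `-1`, so the vectors
  are the nonzero vectors with coordinates `0`, `1`, `-1`, which are not in one orbit.  For a simple
  fivefold: by an element of order five of `G` and the irreducibility of the cyclotomic polynomial
  `Φ₅` the relation is `J = {x_1, …, x_5}`; `p` does not split in `k`, the CM type can be moved to
  signature `(2,3)`, and `J` with a supersingular eigenvalue is a Weil relation in dimension six.
* Two orbits in dimension four: `(w, w ∘ r)`, `r ^ 2 = -1`, sends them to `(±1, 0), (0, ±1)` and
  `(±1, ±1)`.
* Several orbits in dimension five: averaging over the stabilizer of an ordinary elliptic curve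
  `y` shows that either the relations decompose or `A = A' × C`, `A'` of dimension four with one orbit
  `V` of germs of multiplicity `m`, `V = P ∪ -P` and `m • (sum of P) = 2 • y`, the Weil classes of
  the sixfold `A' × C × C`; it is a reduction from characteristic zero with signature `(3,3)`, for
  `m = 2`, `m = 4` with totally real fields totally ramified at `p`.
* Sixfolds of angle rank five: any two relations are proportional, so all relations
  without opposite elements are `t J`, `J` has one element of each of the six pairs and `g J = ± J`,
  which defines `k`.  If `p` splits in `k` a CM type with the given slopes has signature `(3,3)`.
  Otherwise let `T` be the number of elements of `J` in the CM type.  Replacing `x` by its conjugate in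
  a self conjugate local orbit changes `T` by one; exchanging two elements of a local orbit (and
  their conjugates) changes `T` by `0` or `2`; the Frobenius twist changes `T` to `6 - T`.  If there is
  a self conjugate orbit (`SelfConj`) one arrives at `T = 3`.  If not, `T` is congruent modulo two to
  `3` minus the height of the Newton polygon over `6`, which is at most `2`; if it is `0` or `2` one
  arrives at `T = 3`.  If it is `1` (`MidOne`) `J` is not a Hodge class on any lift; this is excluded.
* (d): any two relations are proportional, so a relation `J ≤ R` without opposite elements satisfies
  `g J = ± J`; the abelian variety `R1` with eigenvalues `J`, `-J` has dimension `|J|`, which is even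
  (Tate classes have even degree), so `4` or `6`; the theorem for `R1`.  (`|J| = 5` and `|J| = 7` do
  occur as relations but not as Tate classes on `A`.)
-/

open Pool.T4 Pool.Agent.Work.MP_223b32_ag

theorem Pool.Agent.Results.MP_223b32_ag.AbelianFivefolds.result (p : ℕ) [Fact p.Prime] (a : ℕ)
    (ι : Qb →+* PadicAlgCl p) (ha : 0 < a) (T : Multiset Qb) (hT : Covered3 (p ^ a) ι T) :
    TateW (p ^ a) ι T ∧
      ∀ (ρ : Qb →+* ℂ) (V : Type) [AddCommGroup V] [Module ℂ V] [Module.Finite ℂ V]
      (F : Module.End ℂ V), F.IsSemisimple →
      F.charpoly = (T.map fun x => Polynomial.X - Polynomial.C (ρ x)).prod →
      ∀ N j : ℕ, 0 < N →
        tateClasses (F ^ N) (((p ^ a : ℕ) : ℂ) ^ N) j ≤ algClassesW (p ^ a) ι ρ F j ∧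
        HasPoleOrder (Lfun (F ^ N) (((p ^ a : ℕ) : ℝ) ^ N) j) j
          (Module.finrank ℂ (tateClasses (F ^ N) (((p ^ a : ℕ) : ℂ) ^ N) j)) :=
  main12 p a ι ha T hT
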