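import Pool.Agent.Work.MP_223b32_es_helper4.BETA
import Pool.Agent.Work.MP_223b32_es_helper4.CHS3
import Pool.Agent.Work.MP_223b32_es_helper5.B0C
import Pool.Agent.Work.MP_223b32_es_helper5.CUBC
import Pool.Agent.Work.MP_223b32_es_helper3.INTP
import Pool.Agent.Work.MP_223b32_es_helper3.NCC
import Pool.Agent.Work.MP_223b32_es_helper10.LEC
import Pool.Agent.Work.MP_223b32_es_helper10.NWC
import Pool.Agent.Work.MP_223b32_es_helper14.FLAB
import Pool.Agent.Work.MP_223b32_es_helper15.CYC3
import Pool.Agent.Work.MP_223b32_es_helper15.NUM
import Pool.Agent.Work.MP_223b32_es_helper17.EPC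
import Pool.Agent.Work.MP_223b32_es_helper17.RHOP
import Pool.Agent.Work.MP_223b32_es_helper18.MIN
import Pool.Agent.Work.MP_223b32_es_helper18.RED4
import Pool.Agent.Work.MP_223b32_es_helper20.CNTB
import Pool.Agent.Work.MP_223b32_es_helper20.MREL
import Pool.Agent.Work.MP_223b32_es_helper23.FEC
import Pool.Agent.Work.MP_223b32_es_helper24.PSYM
import Pool.Agent.Work.MP_223b32_es_helper26.MODT
import Pool.Agent.Work.MP_223b32_es_helper28.DATA3
import Pool.Agent.Work.MP_223b32_es_helper28.MAINA
import Pool.Agent.Work.MP_223b32_es_helper28.MAINB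
import Pool.Agent.Work.MP_223b32_es_helper28.WMAIN
import Pool.Agent.Work.MP_223b32_es_helper29.MODF
import Pool.Agent.Work.MP_223b32_es_helper29.PAR1
import Pool.Agent.Work.MP_223b32_es_helper31.CSM
import Pool.Agent.Work.MP_223b32_es_helper31.PT
import Pool.Agent.Work.MP_223b32_es_helper35.PAR2
import Pool.Agent.Work.MP_223b32_es_helper41.VALJ
import Pool.Agent.Work.MP_223b32_es_helper53.VEC
import Pool.Agent.Work.MP_223b32_es_helper83.FORM
import Pool.Agent.Work.MP_223b32_es_helper83.PTS
import Pool.Agent.Work.MP_223b32_es_helper87.SQF3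
import Pool.Agent.Work.MP_223b32_es_helper87.ZER
import Pool.Agent.Work.MP_223b32_es_helper89.MODU
import Pool.Agent.Work.MP_223b32_es_helper28.VALB
import Pool.Agent.Work.MP_223b32_es_helper90.CNT3
import Pool.Agent.Work.MP_223b32_es_helper90.EX3
import Pool.Agent.Work.MP_223b32_es_helper94.FROBC
import Pool.Agent.Work.MP_223b32_es_helper96.ORB2
import Pool.Agent.Work.MP_223b32_es_helper96.TRL
import Pool.Agent.Work.MP_223b32_tc_helper10.PC
import Pool.Agent.Work.MP_223b32_tc_helper28.EXI
import Pool.Agent.Work.MP_223b32_tc_helper28.NV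
import Pool.Agent.Work.MP_223b32_tc_helper39.WEIL
import Pool.Agent.Work.MP_223b32_tc_helper44.NA
import Pool.Agent.Work.MP_223b32_tc_helper50.RHO
import Pool.Agent.Work.MP_223b32_tc_helper65.RU
import Pool.Agent.Work.MP_223b32_tc_helper82.EXT
import Pool.Agent.Work.MP_223b32_tc_helper94.HD
import Pool.Agent.Work.MP_223b32_tl_helper28.FA

/-!
# Powers of elliptic surfaces of unbounded geometric genus over a fixed finite field

`F` is ANY finite field with `q = 1` modulo `6` elements, `n = 3 ^ k`, `k ≥ 4`, `m` any monic cubic
polynomial, `D` a monic polynomial of degree `n` such that `D(m(x))` is irreducible, and `S` the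
elliptic surface `w ^ 2 = D(t) (m(x) - t)` over the `t`-line: the quadratic twist by `D` of the rational
elliptic surface `y ^ 2 = m(x) - t`. Its geometric genus is `(n - 1) / 2`; its second cohomology is
spanned by the zero section, the components of the fibres and a part of dimension `2 n`, whose
Frobenius eigenvalues are denoted by `α_i`.

For `1 ≤ j ≤ k` and all but a proportion `(2 / 3) (1 / 2) ^ (3 ^ (j - 1))` of the `D`:

* over all finite extensions the eigenvalues remain distinct and different from `Q`, so that the Tate
  classes on `S × S` come from the trivial lattice and the graphs of the Frobenius morphisms;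
* the analytic Tate conjecture holds for all powers `S ^ r` over all finite extensions of `F` (over
  which the components of the fibres are defined), in all codimensions less than `3 ^ (k + 1 - j)`:
  every Tate class is a polynomial in pullbacks of Tate classes on `S × S` (spanned by the classes of
  divisors, of fibres and of graphs of Frobenius morphisms), and the order of the pole of the
  `L`-function is the dimension of the space of Tate classes;
* for every `b ≤ k` and EVERY smooth projective variety `Y` over `F` whose Frobenius eigenvalues are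
  (up to powers) products of algebraic integers of degree less than `3 ^ (b + 1)`, all Tate classes in
  `H^(2c)(Y) ⊗ H^(2i)(S ^ r)`, `c` arbitrary, `i < 3 ^ (k - b)`, `2 i < 3 ^ (k + 1 - j)`, are sums of
  products of Tate classes of `Y` and of `S ^ r`, and the orders of the poles multiply.

For two thirds of the `D` (`j = 1`) both statements hold without the condition on `j`, so the first one
in ALL codimensions, if the Newton polygon of `S` has a certain property (which holds if `S` is
ordinary and `k` is odd), or if `m = x ^ 3` and the characteristic is `1` modulo `3`.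

If `m = x ^ 3` then the eigenvalues exist (with the functional equation and integrality, all proved
here).

Idea of the proof.

* The number of points of the surface modulo `4`: the sum of the `χ(v)` over a family of values `v` is
  `1 - χ(∏ v)` up to a known term. The product over all `t` and `x` is a resultant; the polynomials
  `D` are parametrised by the noncubes `w` of the field with `q ^ n` elements, and the character is
  `χ(1 + A + A ^ 2)` with `A = w ^ ((q ^ r - 1) / 3)`.
* Modulo `2` the eigenvalues are the primitive roots of unity of order `3 ^ (k + 1)`, which are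
  permuted cyclically by the Frobenius `σ` above `2`; modulo `4` they are given by a polynomial `Z` over
  the field with two elements, whose traces are these bits. A multiplicative relation between the
  eigenvalues gives a linear relation between the `Z(ξ)`, and if it has less than `3 ^ (k + 1 - j)` terms,
  the vanishing of a component of `Z(ξ)` for a factor `Φ_(3 ^ i)`, `i ≥ j`, of `X ^ n - 1`, that is, of
  `2 * 3 ^ (i - 1)` bits. The number of such `w` is estimated by a Weil bound (proved here by
  Stepanov's method).
* If no component vanishes then the only relations are between the two halves of the eigenvalues,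
  `ξ ^ n = ω` and `ξ ^ n = ω ^ 2`. By the Newton polygon, such a relation is impossible if for instance
  there is an odd number of `p`-adic units, and all slopes are integral. For `m = x ^ 3` the halves are
  a Jacobi sum times the eigenvalues of an `L`-function with a cubic character, and such a relation is
  impossible if the Jacobi sum is a unit at a place above `p`.
* A product of algebraic integers of degree less than `3 ^ (b + 1)` is fixed by `σ ^ K` with `K`
  divisible by no higher power of `3` than `3 ^ b`. If it is equal to a monomial in the eigenvalues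
  up to a root of unity, then this monomial is invariant under `σ ^ K` up to pairs, and all orbits
  have at least `3 ^ (k - b)` elements.
-/

namespace Pool.Agent.Results.MP_223b32_ag.EllipticSurfaces

open Polynomial Pool.Agent.Work.ES

theorem result :
    ∀ (F : Type) [Field F] [Fintype F], Fintype.card F % 6 = 1 → ∀ k : ℕ, 4 ≤ k →
      -- all cubic polynomials `m`
      (∀ m : F[X], m.Monic → m.natDegree = 3 → 0 < (fam F m (3 ^ k)).ncard ∧
        ∀ j : ℕ, 1 ≤ j → j ≤ k → ((exceptionalW F m k j).ncard : ℝ) ≤
          2 / 3 * (1 / 2) ^ 3 ^ (j - 1) * ((fam F m (3 ^ k)).ncard : ℝ)) ∧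
      -- the eigenvalues for `m = X ^ 3`
      (∀ D ∈ fam F (X ^ 3 : F[X]) (3 ^ k), ∃ α : Fin (2 * 3 ^ k) → ℂ, IsEig F (X ^ 3) D α) := by
  have hEXT := Pool.Agent.Work.TC.stmt_EXT
  have hRHO := Pool.Agent.Work.TC.stmt_RHO
  have hFA := Pool.Agent.Work.TL.stmt_FA
  have hNA : Pool.Agent.Work.TC.Stmt_NA :=
    Pool.Agent.Work.TC.stmt_NA Pool.Agent.Work.TC.stmt_NV
      (Pool.Agent.Work.TC.stmt_EXI Pool.Agent.Work.TC.stmt_HD)
  have hWEIL := Pool.Agent.Work.TC.stmt_WEIL hNA
  have hRU := Pool.Agent.Work.TC.stmt_RU
  have hPC := Pool.Agent.Work.TC.stmt_PC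
  have hPTS : Stmt_PTS := stmt_PTS stmt_CSM stmt_ZER
  have hPAR1 : Stmt_PAR1 := stmt_PAR1
  have hPAR2 : Stmt_PAR2 := stmt_PAR2 hPAR1
  have hVEC : Stmt_VEC := stmt_VEC hRU
  have hMREL : Stmt_MREL := stmt_MREL hVEC
  have hMODU : Stmt_MODU :=
    stmt_MODU stmt_ORB2 (stmt_MODT stmt_ORB2 stmt_CYC3) (stmt_MODF stmt_CYC3)
  have hCNTB : Stmt_CNTB :=
    stmt_CNTB (stmt_CNT3 (stmt_CHS3 hWEIL stmt_SQF3) stmt_NCC) stmt_NCC stmt_NUM
  have hDATA : Stmt_DATA3 := stmt_DATA3 hEXT stmt_PT hPTS stmt_FORM hPAR1 stmt_RED4
  have hONE : Stmt_ONE3 := stmt_ONE3 hDATA hRHO hMREL hMODU stmt_PSYM stmt_FLAB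
  have hFROBC : Stmt_FROBC := stmt_FROBC stmt_B0C stmt_EPC stmt_LEC stmt_NWC hPC
  have hEX3 : Stmt_EX3 := stmt_EX3 hFROBC stmt_CUBC stmt_FEC
  have hMIN : Stmt_MIN := stmt_MIN hVEC hMODU stmt_ORB2
  intro F _ _ hq k hk
  refine ⟨fun m hm1 hm2 => ⟨?_, fun j hj1 hj2 => ?_⟩, fun D hD => ?_⟩
  · exact (stmt_MAINA hONE hCNTB hPAR2 stmt_NCC hEXT stmt_TRL F hq k hk m hm1 hm2).1
  · exact mainW hDATA hFA hRHO stmt_ORB2 stmt_FLAB hEX3 hMIN stmt_RHOP stmt_VALJ stmt_VALB
      stmt_BETA hMREL hMODU stmt_PSYM hPAR1 stmt_PT hCNTB hPAR2 hEXT stmt_TRL F hq k hk m hm1 hm2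
      j hj1 hj2
  · exact stmt_MAINB hEX3 stmt_INTP stmt_PT hEXT F hq k (by omega) D hD

end Pool.Agent.Results.MP_223b32_ag.EllipticSurfaces
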