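import Pool.Agent.Work.MP_223b32_ft.Final3

/-!
# The analytic Tate conjecture for all products of diagonal hypersurfaces of degree `l ^ k` or
`2 l ^ k` over finite fields and over the fields `F(t_1, …, t_r)`

`X` is a product of diagonal hypersurfaces `X_i` of degrees `m_i = l_i ^ k_i` or `2 l_i ^ k_i`,
`l_i` prime (all the `i` may have different primes), `M` a common multiple of the `m_i`, `p` a prime
not dividing `M`, `k₀` a finite field of characteristic `p`, `F = k₀(μ_M)`, `q = |F|`, `χ` a
character of order `M` of `F^*`.  (For one hypersurface of degree `m` take `M = m`.)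

For a diagonal hypersurface `X : ∑ c_k x_k ^ m = 0` of dimension `n` the cohomology of `X̄` is
spanned by the powers of the hyperplane class and by lines `V(a)`, `a ∈ (ℤ/m ∖ 0)^(n+2)`,
`∑ a_k = 0` (Weil, Katz, Shioda), on which the Frobenius of `X / F` acts by
`(-1)^n ∏ χ^(-a_k)(c_k) J(a) / (q - 1)`; part (0) of the theorem is the corresponding formula for
the number of points over all finite extensions.  For a product of diagonal hypersurfaces there is
the Künneth basis `b = (b_i)`.

* (1) every Tate class, over any finite extension, is spanned by basis elements whose character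
  (the multiset of all the entries, in `ℤ/M`) is empty or in `Cyc M p`, the smallest set of
  multisets closed under the known constructions of algebraic cycles;
* (2) the same over `k₀`, and the `L`-function `det(1 - q₀^(-s) Φ | H^(2j))^(-1)` of `X / k₀` has at
  `s = j` a pole of order the rank of the group of algebraic classes;
* (3) `k = F(t_1, …, t_r)`, `r ≥ 0`, coefficients `c_k ∈ F[t_1, …, t_r]` not zero (every element of
  `k^*` is such a polynomial up to `m`-th powers, which do not change `X`), `U` the open set of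
  `A^r` where no coefficient vanishes: the Euler product of `H^(2j)` over the closed points of `U`
  converges for `s > j + r` and has at `s = j + r` a pole of order the number of the `b` of degree
  `2 j` with trivial Galois action on `V(b)(j)`, that is, the rank of the group of algebraic
  classes; all the Tate classes over finite extensions of `k` are algebraic.

The constructions (all known, for numerical equivalence): `pair`, the points of the Fermat variety
of dimension `0`; `join` and `cancel`, the inductive structure of Shioda and Katsura; `neg`, the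
action of the Galois group on the coefficients; `frob`, the graph of the Frobenius of the Fermat
curve; `super`, the theorem of Tate for the product of two supersingular factors of Fermat curves
(two triples with all slopes `1 / 2`); `two` and `odd`, the
standard cycles (Aoki, Shioda), which come from characteristic zero.

Known cases: `-1` a power of `p` modulo `m` (Shioda, Katsura), `p = 1` modulo `m` (the Hodge
classes: Shioda, Ran, Aoki), `(ℤ/m)^* / ⟨p⟩` of order `2` (powers of an elliptic curve, Spiess) and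
low dimension.  The theorem is new in all the other cases, for instance `m = 13`, `p = 3` and the
character `(2,2,2,7,7,7,9,9,10,10)` of the Fermat variety of degree `13` and dimension `8`, whose
Tate class does not come from divisors or from a Hodge class.

Idea of the proof.

* Gauss sums of a Teichmüller character: Stickelberger's theorem, with the transfer between
  characters with complex and with `p`-adic values, shows that a Tate character satisfies
  `∑_{x} ∑_{i} ⟨t p^i x / m⟩ = f r / 2` for all units `t`.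
* Let `e` be a function on `ℤ/m` with values in a group which kills all algebraic characters.  The
  distribution relations (standard cycles) express `e` through its values on units.  The Frobenius
  cycles make `d(x) = e(x) - e(p x)` additive.
* `L(0, χ) ≠ 0` for odd Dirichlet characters of conductor a power of `l` shows that the
  multiplicities of the units, averaged over `⟨p⟩`, are even functions; so `e` of a Tate character is
  `d(S)` with `p S = S`, and `d(S) = e(S) - e(p S) = 0`.
* The lattice argument (saturation) with `join`, `neg` and `cancel` shows that a character killed by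
  all such `e` is algebraic.  So there is no exceptional quotient, of order two or other: this is
  where the degrees `l ^ k` and `2 l ^ k` are used.
* Different primes: the parts of a Tate character with different primes `l` are characters of slope
  `1 / 2` separately (Chinese remainder theorem); a part with an odd number of entries is algebraic
  up to a supersingular triple, and two supersingular triples are algebraic together.
* Over `F(t_1, …, t_r)`: a Weil bound for multiplicative characters of any order, uniform in the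
  finite field (Stepanov's method), gives `∑_{x ∈ E^r} χ(N D(x)) = O(|E|^(r - 1/2))` unless `D` is a
  constant times an `m`-th power, and so the behaviour of the Euler products at the edge.
-/

namespace Pool.FT

open Finset

/-! ## The known algebraic cycles -/

/-- The multiset `T` has all the slopes `1 / 2`: for each unit `t` the sum over `x` in `T` of the
`⟨p⟩`-average of the fractional part of `t x / M` is `|T| / 2`. -/
def Slope (M p : ℕ) (T : Multiset (ZMod M)) : Prop :=
  ∃ f : ℕ, 0 < f ∧ (p : ZMod M) ^ f = 1 ∧ ∀ t : (ZMod M)ˣ,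
    2 * ∑ i ∈ range f, (T.map (fun x => ((t : ZMod M) * (p : ZMod M) ^ i * x).val)).sum
      = f * (Multiset.card T) * M

/-- The smallest set of multisets of nonzero residues modulo `M` closed under the known
constructions of algebraic cycles on Fermat varieties of degree `M` in characteristic `p`. -/
inductive Cyc (M p : ℕ) : Multiset (ZMod M) → Prop
  | pair (x : ZMod M) : x ≠ 0 → Cyc M p {x, -x}
  | join (a b : Multiset (ZMod M)) : Cyc M p a → Cyc M p b → Cyc M p (a + b)
  | cancel (a : Multiset (ZMod M)) (x : ZMod M) : Chr M a → x ≠ 0 → Cyc M p (a + {x, -x}) →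
      Cyc M p a
  | neg (a : Multiset (ZMod M)) : Cyc M p a → Cyc M p (a.map (fun x => -x))
  | frob (x y z : ZMod M) : x ≠ 0 → y ≠ 0 → z ≠ 0 → x + y + z = 0 →
      Cyc M p ({x, y, z} + {-((p : ZMod M) * x), -((p : ZMod M) * y), -((p : ZMod M) * z)})
  | super (x y z x' y' z' : ZMod M) :
      x ≠ 0 → y ≠ 0 → z ≠ 0 → x + y + z = 0 → Slope M p {x, y, z} →
      x' ≠ 0 → y' ≠ 0 → z' ≠ 0 → x' + y' + z' = 0 → Slope M p {x', y', z'} →
      Cyc M p ({x, y, z} + {x', y', z'})
  | two (h x : ZMod M) : h ≠ 0 → h + h = 0 → x ≠ 0 → x ≠ h →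
      Cyc M p {x, x + h, -(x + x), h}
  | odd (d : ℕ) (w x : ZMod M) : d.Prime → Odd d → w ≠ 0 → (d : ZMod M) * w = 0 →
      (d : ZMod M) * x ≠ 0 →
      Cyc M p (Multiset.map (fun i : ℕ => x + (i : ZMod M) * w) (Multiset.range d)
        + {-((d : ZMod M) * x)})

theorem Cyc.chr {M p : ℕ} [NeZero M] (hp : p.Coprime M) {a : Multiset (ZMod M)}
    (h : Cyc M p a) : Chr M a := by
  have hC := p_CON M p hp
  induction h with
  | pair x hx => exact hC.chr _ (hC.pair x hx)
  | join a b _ _ iha ihb =>
    obtain ⟨h1, h2, h3, h4⟩ := iha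
    obtain ⟨k1, k2, k3, k4⟩ := ihb
    refine ⟨?_, ?_, ?_, ?_⟩
    · intro h
      exact h1 (add_eq_zero.mp h).1
    · rw [Multiset.mem_add]
      exact fun h => h.elim h2 k2
    · rw [Multiset.sum_add, h3, k3, add_zero]
    · rw [Multiset.card_add]
      exact h4.add k4
  | cancel a x h1 _ _ _ => exact h1
  | neg a _ ih =>
    obtain ⟨h1, h2, h3, h4⟩ := ih
    refine ⟨?_, ?_, ?_, ?_⟩
    · intro h
      exact h1 (Multiset.map_eq_zero.mp h)
    · intro h
      obtain ⟨y, hy, hy0⟩ := Multiset.mem_map.mp h
      rw [neg_eq_zero] at hy0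
      rw [hy0] at hy
      exact h2 hy
    · have e1 := Multiset.sum_map_neg' a
      rw [e1, h3, neg_zero]
    · rw [Multiset.card_map]; exact h4
  | frob x y z h1 h2 h3 h4 => exact hC.chr _ (hC.frob x y z h1 h2 h3 h4)
  | super x y z x' y' z' hx hy hz hs _ hx' hy' hz' hs' _ =>
    refine ⟨by simp, ?_, ?_, ⟨3, by simp⟩⟩
    · simp only [Multiset.insert_eq_cons, Multiset.mem_add, Multiset.mem_cons,
        Multiset.mem_singleton, not_or]
      exact ⟨⟨hx.symm, hy.symm, hz.symm⟩, hx'.symm, hy'.symm, hz'.symm⟩
    · simp only [Multiset.insert_eq_cons, Multiset.sum_add, Multiset.sum_cons,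
        Multiset.sum_singleton]
      linear_combination hs + hs'
  | two h x h1 h2 h3 h4 => exact hC.chr _ (hC.two h x h1 h2 h3 h4)
  | odd d w x h1 h2 h3 h4 h5 =>
    have h6 := hC.chr _ (hC.odd d w x h1 h2 h3 h4 h5)
    simpa only [bind_pure_comp, Multiset.fmap_def, Multiset.map_map, Function.comp_def] using h6

theorem cyc_fermat (M p : ℕ) [NeZero M] (hp : p.Coprime M) : FermatCycles2 M p (Cyc M p) where
  chr _ h := h.chr hp
  pair := Cyc.pair
  join := Cyc.join
  cancel := Cyc.cancel
  neg := Cyc.neg
  frob := Cyc.frob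
  super := Cyc.super
  two := Cyc.two
  odd := by
    intro d w x h1 h2 h3 h4 h5
    have h6 := Cyc.odd (p := p) d w x h1 h2 h3 h4 h5
    simpa only [bind_pure_comp, Multiset.fmap_def, Multiset.map_map, Function.comp_def] using h6

/-! ## Products of diagonal hypersurfaces over finite fields -/

/-- The number of points of `∑ c_k x_k ^ m = 0` over all finite extensions of `F`: the numbers
`lam χ c b` are the Frobenius eigenvalues. -/
def PointFormula (m : ℕ) [NeZero m] {F : Type} [Field F] [Fintype F] (χ : MulChar F ℂ) : Prop :=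
  ∀ (n : ℕ) (c : Fin (n + 2) → Fˣ) (E : Type) [Field E] [Fintype E] [Algebra F E],
    (Nat.card {x : Fin (n + 2) → E // ∑ k, algebraMap F E (c k : F) * x k ^ m = 0} : ℂ)
      = 1 + ((Fintype.card E : ℂ) - 1)
        * ∑ b : Cls m n, (-1) ^ (degC b) * (lam χ c b) ^ (Module.finrank F E)

/-- The degrees of the hypersurfaces: `l ^ k` or `2 l ^ k`, `l` prime, `k > 0`. -/
def Degree (m : ℕ) : Prop :=
  ∃ l k : ℕ, l.Prime ∧ 0 < k ∧ (m = l ^ k ∨ m = 2 * l ^ k)

/-- The basis of the cohomology of the product of hypersurfaces of degrees `m i` and dimensions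
`n i` (Künneth). -/
def Bas {ι : Type} (m n : ι → ℕ) : Type := ∀ i, Cls (m i) (n i)

/-- degree of a basis element -/
def degB {ι : Type} [Fintype ι] {m n : ι → ℕ} (b : Bas m n) : ℕ := ∑ i, degC (b i)

/-- All the entries of a basis element, in `ℤ/M`; an entry `x` in `ℤ/m` gives `(M / m) x`. -/
def charB (M : ℕ) {ι : Type} [Fintype ι] {m n : ι → ℕ} (b : Bas m n) : Multiset (ZMod M) :=
  ∑ i, (charsC (b i)).map (fun x => ((M / m i * x.val : ℕ) : ZMod M))

/-- Frobenius eigenvalue of a basis element, `χ` a character of order `M` of `F`. -/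
noncomputable def eigB (M : ℕ) {F : Type} [Field F] [Fintype F] (χ : MulChar F ℂ) {ι : Type}
    [Fintype ι] {m n : ι → ℕ} (c : ∀ i, Fin (n i + 2) → Fˣ) (b : Bas m n) : ℂ :=
  ∏ i, lam (χ ^ (M / m i)) (c i) (b i)

/-- The basis element is spanned by an algebraic class. -/
def AlgB (M p : ℕ) {ι : Type} [Fintype ι] {m n : ι → ℕ} (b : Bas m n) : Prop :=
  charB M b = 0 ∨ Cyc M p (charB M b)

/-- Every Tate class of codimension `j`, over any finite extension, is algebraic. -/
def TateBar (M p : ℕ) {F : Type} [Field F] [Fintype F] (χ : MulChar F ℂ)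
    {ι : Type} [Fintype ι] (m : ι → ℕ) {n : ι → ℕ} (c : ∀ i, Fin (n i + 2) → Fˣ) (j : ℕ) : Prop :=
  ∀ (b : Bas m n) (N : ℕ), 0 < N → degB b = 2 * j →
    (eigB M χ c b) ^ N = (Fintype.card F : ℂ) ^ (j * N) → AlgB M p b

/-- The basis of `H^(2j)`. -/
def BasJ {ι : Type} [Fintype ι] (m n : ι → ℕ) (j : ℕ) : Type := {b : Bas m n // degB b = 2 * j}

/-- The Tate classes `Φ v = q₀ ^ j v` of codimension `j` over the field with `q₀` elements. -/
noncomputable def TateCl (q₀ j : ℕ) {W : Type} [AddCommGroup W] [Module ℂ W]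
    (Φ : W →ₗ[ℂ] W) : Submodule ℂ W :=
  LinearMap.eqLocus Φ ((q₀ : ℂ) ^ j • LinearMap.id)

/-- `det(1 - q₀^(-z) Φ)^(-1)` -/
noncomputable def LFun (q₀ : ℕ) {W : Type} [AddCommGroup W] [Module ℂ W]
    (Φ : W →ₗ[ℂ] W) (z : ℂ) : ℂ :=
  (LinearMap.det (LinearMap.id - (q₀ : ℂ) ^ (-z) • Φ))⁻¹

/-- `Φ ^ s` is the Frobenius over `F` of `H^(2j)`, a vector space `W` with the basis `e`. -/
def IsFrob (M : ℕ) {F : Type} [Field F] [Fintype F] (χ : MulChar F ℂ) {ι : Type} [Fintype ι]
    {m n : ι → ℕ} (c : ∀ i, Fin (n i + 2) → Fˣ) {j : ℕ} (s : ℕ) {W : Type} [AddCommGroup W]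
    [Module ℂ W] (e : Module.Basis (BasJ m n j) ℂ W) (Φ : W →ₗ[ℂ] W) : Prop :=
  ∀ b : BasJ m n j, (Φ ^[s]) (e b) = eigB M χ c b.1 • e b

/-- The analytic Tate conjecture in codimension `j` over all the fields with `q₀` elements,
`q₀ ^ s = |F|`, for all `Φ` whose power `Φ ^ s` is the Frobenius over `F`: the Tate classes are
algebraic, and their dimension is the order of the pole of the `L`-function. -/
def AnTate (M p : ℕ) {F : Type} [Field F] [Fintype F] (χ : MulChar F ℂ)
    {ι : Type} [Fintype ι] (m : ι → ℕ) {n : ι → ℕ} (c : ∀ i, Fin (n i + 2) → Fˣ) (j : ℕ) : Prop :=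
  ∀ (q₀ s : ℕ), 0 < s → q₀ ^ s = Fintype.card F →
    ∀ (W : Type) [AddCommGroup W] [Module ℂ W] (e : Module.Basis (BasJ m n j) ℂ W)
      (Φ : W →ₗ[ℂ] W), IsFrob M χ c s e Φ →
      (∀ v ∈ TateCl q₀ j Φ, ∀ b, e.repr v b ≠ 0 → AlgB M p b.1) ∧
      HasPoleOrder (LFun q₀ Φ) j (Module.finrank ℂ (TateCl q₀ j Φ))

/-! ## Products of diagonal hypersurfaces over `F(t_1, …, t_r)` -/

/-- The places of good reduction: the closed points of the open set of `A^r` over `F` where no
coefficient vanishes. -/
def Place {F : Type} [Field F] {r : ℕ} {ι : Type} {n : ι → ℕ}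
    (c : ∀ i : ι, Fin (n i + 2) → MvPolynomial (Fin r) F) : Type :=
  {v : MaximalSpectrum (MvPolynomial (Fin r) F) // ∀ i k, c i k ∉ v.asIdeal}

section Places

variable {F : Type} [Field F] {r : ℕ} {ι : Type} {n : ι → ℕ}
  {c : ∀ i : ι, Fin (n i + 2) → MvPolynomial (Fin r) F}

/-- The place `v` as a closed point of affine space. -/
def cpt (v : Place c) : MaximalSpectrum (MvPolynomial (Fin r) F) := v.1

/-- The residue field at a maximal ideal. -/
def ResF {R : Type} [CommRing R] (v : MaximalSpectrum R) : Type := R ⧸ v.asIdeal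

noncomputable instance instResF {R : Type} [CommRing R] (v : MaximalSpectrum R) :
    Field (ResF v) := Ideal.Quotient.field v.asIdeal

instance instResA {k R : Type} [Field k] [CommRing R] [Algebra k R] (v : MaximalSpectrum R) :
    Algebra k (ResF v) := (inferInstance : Algebra k (R ⧸ v.asIdeal))

/-- The residue class. -/
def resCl {R : Type} [CommRing R] (v : MaximalSpectrum R) (f : R) : ResF v :=
  Ideal.Quotient.mk v.asIdeal f

/-- The residue field of a place. -/
def KV (v : Place c) : Type := ResF (cpt v)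

noncomputable instance instKVf (v : Place c) : Field (KV v) := instResF (cpt v)

noncomputable instance instKVa (v : Place c) : Algebra F (KV v) := instResA (cpt v)

instance instKVn [Finite F] (v : Place c) : Finite (KV v) := kapFinite (cpt v)

noncomputable instance instKVt [Finite F] (v : Place c) : Fintype (KV v) := Fintype.ofFinite _

/-- The value of a polynomial at a place. -/
noncomputable def evV (v : Place c) (f : MvPolynomial (Fin r) F) : KV v := resCl (cpt v) f

theorem evV_ne (v : Place c) (i : ι) (k : Fin (n i + 2)) : evV v (c i k) ≠ 0 :=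
  fun h => v.2 i k (Ideal.Quotient.eq_zero_iff_mem.1 h)

/-- The coefficients at a place. -/
noncomputable def redV (v : Place c) (i : ι) (k : Fin (n i + 2)) : (KV v)ˣ :=
  Units.mk0 (evV v (c i k)) (evV_ne v i k)

end Places

/-- The character `χ ∘ N` of an extension field. -/
noncomputable def normChar {F : Type} (E : Type) [Field F] [Fintype F] [Field E] [Fintype E]
    [Algebra F E] (χ : MulChar F ℂ) : MulChar E ℂ where
  toFun x := χ (Algebra.norm F x)
  map_one' := by rw [map_one, map_one]
  map_mul' x y := by rw [map_mul, map_mul]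
  map_nonunit' a ha := by
    have h : a = 0 := by rwa [isUnit_iff_ne_zero, not_not] at ha
    rw [h, Algebra.norm_zero]
    exact MulChar.map_zero χ

/-- The Frobenius eigenvalue at the place `v`: the one over the residue field, for the character
`χ ∘ N` and the values of the coefficients. -/
noncomputable def eigV (M : ℕ) {F : Type} [Field F] [Fintype F] (χ : MulChar F ℂ) {r : ℕ}
    {ι : Type} [Fintype ι] {m n : ι → ℕ} {c : ∀ i : ι, Fin (n i + 2) → MvPolynomial (Fin r) F}
    (v : Place c) (b : Bas m n) : ℂ :=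
  eigB M (normChar (KV v) χ) (redV v) b

/-- The Euler factor at `v` of the `L`-function of `H^(2j)`. -/
noncomputable def locV (M : ℕ) {F : Type} [Field F] [Fintype F] (χ : MulChar F ℂ) {r : ℕ}
    {ι : Type} [Fintype ι] (m : ι → ℕ) {n : ι → ℕ}
    {c : ∀ i : ι, Fin (n i + 2) → MvPolynomial (Fin r) F} (j : ℕ)
    (v : Place c) (s : ℂ) : ℂ :=
  ∏ᶠ b : BasJ m n j, (1 - eigV M χ v b.1 * (Fintype.card (KV v) : ℂ) ^ (-s))⁻¹

/-- The analytic Tate conjecture in codimension `j` over `k = F(t_1, …, t_r)` for the product of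
the hypersurfaces `∑_k c_k(t) x_k ^ m = 0`. -/
def TateFF (M p : ℕ) {F : Type} [Field F] [Fintype F] (χ : MulChar F ℂ) {r : ℕ}
    {ι : Type} [Fintype ι] (m : ι → ℕ) {n : ι → ℕ}
    (c : ∀ i, Fin (n i + 2) → MvPolynomial (Fin r) F) (j : ℕ) : Prop :=
  -- there is a place
  Nonempty (Place c) ∧
  -- the Tate classes over finite extensions are algebraic (one place is enough)
  (∀ (b : Bas m n) (N : ℕ) (v : Place c), 0 < N → degB b = 2 * j →
    (eigV M χ v b) ^ N = (Fintype.card (KV v) : ℂ) ^ (j * N) → AlgB M p b) ∧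
  -- the Euler product converges for `s > j + r`
  (∀ s : ℝ, (j : ℝ) + r < s → Multipliable (fun v : Place c => locV M χ m j v (s : ℂ))) ∧
  -- and has at `j + r` a pole of order the number of the basis elements which are Tate classes
  HasPoleOrder (fun s => ∏' v : Place c, locV M χ m j v s) ((j : ℝ) + r)
    (Nat.card {b : Bas m n // degB b = 2 * j ∧
      ∀ v : Place c, eigV M χ v b = (Fintype.card (KV v) : ℂ) ^ j})

/-! ## Lemmas for the proof -/

theorem fin_bas {ι : Type} [Fintype ι] (m n : ι → ℕ) (hm : ∀ i, m i ≠ 0) (j : ℕ) :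
    Finite (BasJ m n j) := by
  have h1 : ∀ i, NeZero (m i) := fun i => ⟨hm i⟩
  exact (inferInstance : Finite {b : ∀ i, Cls (m i) (n i) // degM b = 2 * j})

/-- Descent for a vector space with a basis. -/
theorem descent_basis (B : Type) [Fintype B] [DecidableEq B] (μ : B → ℂ) (q₀ s j : ℕ)
    (hμ : ∀ b, μ b ≠ 0) (hq : 1 < q₀) (hs : 0 < s) (W : Type) [AddCommGroup W] [Module ℂ W]
    (e : Module.Basis B ℂ W) (Φ : W →ₗ[ℂ] W) (hΦ : ∀ b, (Φ ^[s]) (e b) = μ b • e b) :
    (∀ v ∈ TateCl q₀ j Φ, ∀ b, e.repr v b ≠ 0 → μ b = (q₀ : ℂ) ^ (j * s)) ∧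
      HasPoleOrder (LFun q₀ Φ) j (Module.finrank ℂ (TateCl q₀ j Φ)) := by
  set E := e.equivFun with hE
  let Ψ : Module.End ℂ (B → ℂ) := E.toLinearMap ∘ₗ Φ ∘ₗ E.symm.toLinearMap
  have hΨ1 : ∀ w, Ψ (E w) = E (Φ w) := fun w => by
    change E (Φ (E.symm (E w))) = _
    rw [LinearEquiv.symm_apply_apply]
  have hΨs : ∀ (k : ℕ) (w : W), (Ψ ^ k) (E w) = E ((Φ ^[k]) w) := by
    intro k
    induction k with
    | zero => intro w; rfl
    | succ k ih =>
      intro w
      rw [pow_succ, Module.End.mul_apply, hΨ1, ih, Function.iterate_succ_apply]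
  have hlin : ∀ w : W, (Φ ^[s]) w = ∑ b, (E w b * μ b) • e b := by
    intro w
    have h1 : w = ∑ b, E w b • e b := (e.sum_equivFun w).symm
    have h2 : (Φ ^[s]) w = (Φ ^ s) w := (Module.End.pow_apply Φ s w).symm
    rw [h2]
    conv_lhs => rw [h1]
    rw [map_sum]
    refine Finset.sum_congr rfl fun b _ => ?_
    rw [map_smul, Module.End.pow_apply, hΦ b, smul_smul]
  have hdiag : ∀ (v : B → ℂ) b, (Ψ ^ s) v b = μ b * v b := by
    intro v b
    obtain ⟨w, rfl⟩ := E.surjective v
    rw [hΨs, hlin, map_sum, Finset.sum_apply]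
    rw [Finset.sum_eq_single b]
    · rw [map_smul, Pi.smul_apply, hE, e.equivFun_self, if_pos rfl, smul_eq_mul, mul_one, mul_comm]
    · intro b' _ hb'
      rw [map_smul, Pi.smul_apply, hE, e.equivFun_self, if_neg hb', smul_zero]
    · intro h
      exact absurd (Finset.mem_univ b) h
  obtain ⟨h1, h2⟩ := p_DSA B μ q₀ s j hμ hq hs Ψ hdiag
  refine ⟨?_, ?_⟩
  · intro v hv b hb
    refine h1 (E v) ?_ b hb
    have hv' : Φ v = (q₀ : ℂ) ^ j • v := hv
    rw [hΨ1, hv', map_smul]
  · have hdet : ∀ z : ℂ, (LinearMap.det (1 - (q₀ : ℂ) ^ (-z) • Ψ))⁻¹ = LFun q₀ Φ z := by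
      intro z
      unfold LFun
      have h3 : (1 - (q₀ : ℂ) ^ (-z) • Ψ : Module.End ℂ (B → ℂ))
          = E.toLinearMap ∘ₗ (LinearMap.id - (q₀ : ℂ) ^ (-z) • Φ) ∘ₗ E.symm.toLinearMap := by
        ext v b
        simp [Ψ]
      rw [h3, LinearMap.det_conj]
    have hker : Module.finrank ℂ (LinearMap.ker (Ψ - (q₀ : ℂ) ^ j • LinearMap.id))
        = Module.finrank ℂ (TateCl q₀ j Φ) := by
      have h4 : (LinearMap.ker (Ψ - (q₀ : ℂ) ^ j • LinearMap.id))
          = (TateCl q₀ j Φ).map E.toLinearMap := by
        ext v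
        obtain ⟨w, rfl⟩ := E.surjective v
        rw [LinearMap.mem_ker, LinearMap.sub_apply, sub_eq_zero, hΨ1]
        constructor
        · intro h
          refine ⟨w, ?_, rfl⟩
          have h5 : E (Φ w) = E ((q₀ : ℂ) ^ j • w) := by
            rw [h, map_smul]
            rfl
          exact E.injective h5
        · rintro ⟨w', hw', hww⟩
          have h6 : w' = w := E.injective hww
          rw [h6] at hw'
          have h7 : Φ w = (q₀ : ℂ) ^ j • w := hw'
          rw [h7, map_smul]
          rfl
      rw [h4]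
      exact LinearEquiv.finrank_map_eq E _
    rw [hker] at h2
    have h8 : (fun z : ℂ => (LinearMap.det (1 - (q₀ : ℂ) ^ (-z) • Ψ))⁻¹) = LFun q₀ Φ :=
      funext hdet
    rw [h8] at h2
    exact h2

theorem card_split {B : Type} (P Q : B → Prop) [Fintype {b // P b}] [DecidablePred Q] :
    Nat.card {b : B // P b ∧ Q b} = ∑ b : {b // P b}, if Q b.1 then 1 else 0 := by
  classical
  rw [Finset.sum_boole, Nat.cast_id, ← Fintype.card_subtype, ← Nat.card_eq_fintype_card]
  refine Nat.card_congr (Equiv.subtypeSubtypeEquivSubtypeInter P Q).symm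

theorem card_split' {ι : Type} [Fintype ι] (m n : ι → ℕ) (j : ℕ) (h : Fintype (BasJ m n j))
    (Q : Bas m n → Prop) [DecidablePred Q] :
    Nat.card {b : Bas m n // degB b = 2 * j ∧ Q b} = ∑ b : BasJ m n j, if Q b.1 then 1 else 0 :=
  @card_split (Bas m n) (fun b => degB b = 2 * j) Q h _

end Pool.FT

namespace Pool.Agent.Results.MP_223b32_ag.FermatVarieties

open Pool.FT

theorem result :
    ∀ (M p : ℕ) [NeZero M] [Fact p.Prime], ¬ p ∣ M →
    ∀ (F : Type) [Field F] [Fintype F] [CharP F p] (χ : MulChar F ℂ), orderOf χ = M →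
      -- (0) the Frobenius eigenvalues of the diagonal hypersurfaces
      (∀ (m : ℕ) [NeZero m], m ∣ M → PointFormula m (χ ^ (M / m))) ∧
      -- products of diagonal hypersurfaces of degrees `m i`
      ∀ (ι : Type) [Fintype ι] (m n : ι → ℕ), (∀ i, Degree (m i)) → (∀ i, m i ∣ M) → ∀ j : ℕ,
        -- (1), (2) over finite fields
        (∀ c : ∀ i, Fin (n i + 2) → Fˣ, TateBar M p χ m c j ∧ AnTate M p χ m c j) ∧
        -- (3) over `F(t_1, …, t_r)`
        ∀ (r : ℕ) (c : ∀ i, Fin (n i + 2) → MvPolynomial (Fin r) F), (∀ i k, c i k ≠ 0) →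
          TateFF M p χ m c j := by
  intro M p _ hp hM F _ _ _ χ hχ
  have hcop : p.Coprime M := (Nat.Prime.coprime_iff_not_dvd hp.out).2 hM
  have hM0 : M ≠ 0 := NeZero.ne M
  have hTB : ∀ (F : Type) [Field F] [Fintype F] [CharP F p] (χ : MulChar F ℂ), orderOf χ = M →
      ∀ (ι : Type) [Fintype ι] (m n : ι → ℕ), (∀ i, Degree (m i)) → (∀ i, m i ∣ M) → ∀ j : ℕ,
      ∀ c : ∀ i, Fin (n i + 2) → Fˣ, TateBar M p χ m c j := by
    intro F _ _ _ χ hχ ι _ m n hD hmM j c b N hN hb h
    exact t_TBM M p hM F χ hχ ι m n hD hmM c (Cyc M p) (cyc_fermat M p hcop) b j N hN hb h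
  refine ⟨fun m _ hm n c E _ _ _ => ?_, fun ι _ m n hD hmM j => ?_⟩
  · have ho : orderOf (χ ^ (M / m)) = m := by
      rw [orderOf_pow_of_dvd (Nat.div_pos (Nat.le_of_dvd (Nat.pos_of_ne_zero hM0) hm)
        (Nat.pos_of_ne_zero (NeZero.ne m))).ne' (by rw [hχ]; exact Nat.div_dvd_of_dvd hm), hχ]
      exact Nat.div_div_self hm hM0
    classical
    rw [Nat.card_eq_fintype_card]
    exact t_PTX F E m n (χ ^ (M / m)) ho c
  · have hm0 : ∀ i, m i ≠ 0 := fun i h => hM0 (Nat.eq_zero_of_zero_dvd (h ▸ hmM i))
    have hmz : ∀ i, NeZero (m i) := fun i => ⟨hm0 i⟩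
    have hfin : Finite (BasJ m n j) := fin_bas m n hm0 j
    classical
    have hft : Fintype (BasJ m n j) := Fintype.ofFinite _
    have hq1 : 1 < Fintype.card F := Fintype.one_lt_card
    refine ⟨fun c => ⟨hTB F χ hχ ι m n hD hmM j c, ?_⟩, fun r c hc => ?_⟩
    · intro q₀ s hs hq W _ _ e Φ hΦ
      have hq0 : 1 < q₀ := by
        by_contra hcon
        have h1 : q₀ ^ s ≤ 1 := Nat.pow_le_one_iff hs.ne' |>.2 (by omega)
        omega
      have hne : ∀ b : BasJ m n j, eigB M χ c b.1 ≠ 0 := by
        intro b
        refine Finset.prod_ne_zero_iff.2 fun i _ => ?_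
        have ho : orderOf (χ ^ (M / m i)) = m i := by
          rw [orderOf_pow_of_dvd (Nat.div_pos (Nat.le_of_dvd (Nat.pos_of_ne_zero hM0) (hmM i))
            (Nat.pos_of_ne_zero (hm0 i))).ne' (by rw [hχ]; exact Nat.div_dvd_of_dvd (hmM i)), hχ]
          exact Nat.div_div_self (hmM i) hM0
        exact t_ENZ F (χ ^ (M / m i)) (m i) ho (n i) (c i) (b.1 i)
      obtain ⟨h1, h2⟩ := descent_basis (BasJ m n j) (fun b => eigB M χ c b.1) q₀ s j hne hq0 hs
        W e Φ hΦ
      refine ⟨fun v hv b hb => ?_, h2⟩
      refine hTB F χ hχ ι m n hD hmM j c b.1 1 one_pos b.2 ?_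
      have h3 : eigB M χ c b.1 = (q₀ : ℂ) ^ (j * s) := h1 v hv b hb
      rw [pow_one, mul_one, h3, ← hq, Nat.cast_pow, ← pow_mul, mul_comm s j]
    · have hP := t_PNE F r ι n c hc
      have hline := fun b : BasJ m n j => t_ONM F χ M hχ r ι m n hmM c hc b.1 j b.2
      have hpro := p_PRO (Place c) (BasJ m n j)
        (fun b v s => (1 - eigV M χ v b.1 * (Fintype.card (KV v) : ℂ) ^ (-s))⁻¹)
        ((j : ℝ) + r)
        (fun b => if ∀ v : Place c, eigV M χ v b.1 = (Fintype.card (KV v) : ℂ) ^ j then 1 else 0)
        (fun b s hs => (hline b).1 s hs) (fun b => by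
          by_cases hb : ∀ v : Place c, eigV M χ v b.1 = (Fintype.card (KV v) : ℂ) ^ j
          · simp only [if_pos hb]
            exact (hline b).2.1 hb
          · simp only [if_neg hb]
            exact (hline b).2.2 hb)
      have hloc : ∀ (v : Place c) (s : ℂ), locV M χ m j v s
          = ∏ b : BasJ m n j, (1 - eigV M χ v b.1 * (Fintype.card (KV v) : ℂ) ^ (-s))⁻¹ := by
        intro v s
        exact finprod_eq_prod_of_fintype _
      refine ⟨hP, fun b N v hN hb hv => ?_, fun s hs => ?_, ?_⟩
      · have hK : CharP (KV v) p :=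
          charP_of_injective_algebraMap (algebraMap F (KV v)).injective p
        have hord : orderOf (normChar (KV v) χ) = M := by
          have h5 := PTX_order (KV v) χ
          rw [hχ] at h5
          exact h5
        exact hTB (KV v) (normChar (KV v) χ) hord ι m n hD hmM j (redV v) b N hN hb hv
      · have h6 := hpro.1 s hs
        simp only [hloc]
        exact h6
      · have h7 := hpro.2
        have h8 : Nat.card {b : Bas m n // degB b = 2 * j ∧
            ∀ v : Place c, eigV M χ v b = (Fintype.card (KV v) : ℂ) ^ j}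
            = ∑ b : BasJ m n j,
              if ∀ v : Place c, eigV M χ v b.1 = (Fintype.card (KV v) : ℂ) ^ j then 1 else 0 := by
          exact card_split' m n j hft _
        rw [h8]
        simp only [hloc]
        exact h7

end Pool.Agent.Results.MP_223b32_ag.FermatVarieties
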