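import Pool.Agent.Work.MP_223b32_FF.All
import Pool.Agent.Work.MP_223b32_FY.ALLY

/-!
# The analytic Tate conjecture for almost all abelian varieties over a fixed finite field, and for
their products with other varieties

The isogeny classes of abelian varieties of dimension `g` over `F_q`, `q = p ^ a`, correspond (Weil,
Honda, Tate) to a set `I` of real Weil polynomials which contains all the ordinary ones.  There are
`c > 0` and `Q₀` such that for each `q ≥ Q₀`:

* for each `g ≥ 1` the number of real Weil polynomials of degree `g` which do not have
  `TateProperty` is at most `q ^ (- c g)` times the number of the ordinary ones;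
* for `g ≥ g₀`, each such `I` and each `r ≥ 1`, all `r`-tuples of elements of `I` but a proportion
  `r ^ 2 q ^ (- c g)` have `TateRelT`: the corresponding abelian varieties `A_1, …, A_r` are
  independent of each other and of every variety `Y` over `F_q` whose Frobenius eigenvalues are,
  up to powers of `q`, radicals of products of Weil numbers of degree less than `2 g`, for instance
  of all products of curves and abelian varieties of dimension less than `g`.  So the Tate
  conjecture for `Y` implies the Tate conjecture for all `Y × A_1 ^ n_1 × ⋯ × A_r ^ n_r`.

So over a fixed finite field with at least `Q₀` elements the exceptions have exponentially small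
proportion as the dimension grows, and everything is uniform in the dimension.

Idea of the proof.

* Upper bound for the number of Weil polynomials: the normalised power sums of the Frobenius
  eigenvalues form a positive definite Toeplitz sequence.  In the Levinson recursion
  `E_(j+1) = E_j (1 - γ_j ^ 2)` the reflection coefficient `γ_j` is an affine function of the `j`-th
  coefficient, an integer, and `∑ (1 - γ ^ 2) ^ s` over an arithmetic progression is at most the
  integral plus one.  This gives `200 ^ g q ^ (g (g + 1) / 4) / √g!`.
* The mass `2 g + 1` instead of `2 g` leaves room for cubes of side `q ^ (k / 2) / 300 ^ g` in all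
  but the first `k` coefficients, so Turán's sieve costs nothing, also in products of two cubes.
* Lower bound: Chebyshev alternation and the pigeonhole principle.
* Sieve: modulo a prime `ℓ` the polynomials with the first `k` coefficients prescribed which are a
  product of three irreducible factors of prescribed degrees `d₁` (large) and `d₂, d₃` (about `k`)
  with a nonsquare condition on the second are counted with a mean square bound for the short
  factors and Mordell's bound for the long one.
* A power of the Frobenius element flips the roots above the second factor only; with an argument on
  blocks of imprimitivity and the irreducibility this makes all multiplicative relations trivial.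
* The long factor and the irreducibility make the Galois group of the real Weil polynomial doubly
  transitive, and a power of the Frobenius element with small support makes it contain the
  alternating group (Bochert).  A Weil number of degree less than `2 g` lives in an extension, of
  exponent two, of a field with a Galois group of permutations of less than `g` letters; since the
  alternating group is simple and perfect the flips of the roots exist over all these fields.
* For two polynomials the patterns, with different cycle lengths, appear at the same prime, so the
  splitting field of one does not contain that of the other, and the flips exist over it, too.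
-/

namespace Pool.Agent.Results.MP_223b32_ag.FixedFieldTimesAny

open Pool.Agent.Work Pool.Agent.Work.MP_223b32_ag_56 Pool.Agent.Work.FF Pool.Agent.Work.FY
open Polynomial

theorem result : ∃ c > (0 : ℝ), ∃ Q₀ g₀ : ℕ, ∀ p a : ℕ, p.Prime → 0 < a → Q₀ ≤ p ^ a →
    ∀ g : ℕ, 1 ≤ g →
      -- there are finitely many real Weil polynomials,
      (realWeil (p ^ a) g).Finite ∧
      -- some of them are ordinary,
      (0 : ℝ) < (ordinary p (p ^ a) g).ncard ∧
      -- the number of all exceptions (ordinary or not) to the Tate property is at most
      ((MP_223b32_ag_56.exceptional (p ^ a) g).ncard : ℝ) ≤
        ((p : ℝ) ^ a) ^ (-(c * g)) * ((ordinary p (p ^ a) g).ncard : ℝ) ∧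
      -- and for each set `I` between the ordinary ones and all of them the number of the tuples
      -- which are not independent of each other and of the varieties `Y` is at most
      (g₀ ≤ g → ∀ I : Set ℤ[X], ordinary p (p ^ a) g ⊆ I → I ⊆ realWeil (p ^ a) g →
        ∀ r : ℕ, 1 ≤ r → ((exceptionalT (p ^ a) g r I).ncard : ℝ) ≤
          r ^ 2 * ((p : ℝ) ^ a) ^ (-(c * g)) * (I.ncard : ℝ) ^ r) := by
  have hU : Stmt_UPPER := stmt_UPPER stmt_TOEP stmt_UEST stmt_TRI
  have hC : FF.Stmt_COVER := stmt_COVER hU stmt_CUBE
  have hR : FF.Stmt_RED := stmt_RED hU stmt_CUBE
  have hPatt : FF.Stmt_PATT := stmt_PATT stmt_COUNT3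
  have hSep : FF.Stmt_SEP := stmt_SEP stmt_FROB
  exact comb
    (FF.stmt_FINAL hC hR stmt_CSIEVE stmt_PRIMES hPatt stmt_LOWER (stmt_GAL hSep) stmt_ARITH)
    (stmt_TUP
      (stmt_LARGE1 hC hR stmt_CSIEVE stmt_PRIMES hPatt stmt_LOWER)
      (stmt_LARGE2 (stmt_COVER2 (stmt_COVK hU stmt_CUBE)) (stmt_CUBE2 stmt_CSIEVE hPatt)
        stmt_PRIMES stmt_LOWER)
      (stmt_ARI2 stmt_LEG)
      (stmt_JOIN hSep (stmt_ALT stmt_FROB (stmt_PERM stmt_TWO stmt_BOCH)) (stmt_PAIR stmt_FROBJ)
        (stmt_CNT2 stmt_REL (stmt_OVER2 stmt_GRP stmt_GRP2)) stmt_FLXP))

end Pool.Agent.Results.MP_223b32_ag.FixedFieldTimesAny
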